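import Pool.Agent.W292.NR.Stm

set_option autoImplicit false

/-!
# Part EDGED: the edge of a complement variable
-/

namespace Pool.Agent.W554.NR

open Finset Pool.Agent.W292.NR

/-- the product of the signs -/
def PP (v : ℕ → Bool) (t u : ℕ) : ℚ := ((∏ w ∈ Ico t u, sgn (v w) : ℤ) : ℚ)

theorem PP_succ (v : ℕ → Bool) {t u : ℕ} (h : t ≤ u) :
    PP v t (u + 1) = PP v t u * ((sgn (v u) : ℤ) : ℚ) := by
  unfold PP
  rw [Finset.prod_Ico_succ_top h]
  push_cast
  ring

theorem psumD (v : ℕ → Bool) {t u : ℕ} (h : t ≤ u) :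
    ∑ w ∈ Ico t u, (if v w = true then 2 * PP v t w else 0) = 1 - PP v t u := by
  induction u, h using Nat.le_induction with
  | base => simp [PP]
  | succ u hu ih =>
    rw [Finset.sum_Ico_succ_top hu, ih, PP_succ v hu]
    by_cases hv : v u = true
    · rw [if_pos hv, hv]
      simp only [sgn, if_true]
      push_cast
      ring
    · rw [if_neg hv]
      have : v u = false := by simpa using hv
      rw [this]
      simp [sgn]

section

variable {k : ℕ} {st ln : ℕ → ℕ}

theorem chain_top (h : Chains k st ln) {t : ℕ} (ht : t < k) :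
    st (st t) = st t ∧ ln (st t) = ln t := by
  have h1 := h.le t ht
  have h2 := h.lt t ht
  exact h.same t ht (st t) le_rfl (by omega)

theorem chain_ln (h : Chains k st ln) {t u : ℕ} (ht : t < k) (hu : u < k) (hs : st u = st t) :
    ln u = ln t := by
  have h1 := (chain_top h ht).2
  have h2 := (chain_top h hu).2
  rw [← h1, ← h2, hs]

theorem dirD_false (st : ℕ → ℕ) (v : ℕ → Bool) (t w : Fin k) :
    dirD k st v t (w, false) =
      if st w = st t ∧ (t : ℕ) ≤ w ∧ v w = true then 2 * PP v t w else 0 := by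
  unfold dirD PP
  rw [if_neg (by simp)]
  simp only [true_and, Fin.le_def]

theorem dirD_true (st : ℕ → ℕ) (v : ℕ → Bool) (t w : Fin k) :
    dirD k st v t (w, true) = if w = t then 1 else 0 := by
  unfold dirD
  by_cases h : w = t
  · subst h; simp
  · rw [if_neg (by simpa using h), if_neg (by simp), if_neg h]

theorem sum_dummy (st : ℕ → ℕ) (v : ℕ → Bool) (t : Fin k) (f : Fin k → ℚ) :
    ∑ w : Fin k, f w * dirD k st v t (w, true) = f t := by
  simp_rw [dirD_true]
  simp

theorem edged_rate (h : Chains k st ln) (v : ℕ → Bool) (t u : Fin k) (hvu : v u = true) :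
    (chainLP k st).rate (dirD k st v t) (Sum.inl (u, false)) = 0 := by
  unfold LP.rate
  simp only [Fintype.sum_prod_type, Fintype.sum_bool]
  rw [Finset.sum_add_distrib, sum_dummy st v t
    (fun w => (((chainLP k st).A (u, false) (w, true) : ℤ) : ℚ))]
  have hA1 : ((chainLP k st).A (u, false) (t, true) : ℤ) =
      if st u ≤ (t : ℕ) ∧ (t : ℕ) ≤ u then -2 else 0 := rfl
  have e1 : ∀ w : Fin k, (((chainLP k st).A (u, false) (w, false) : ℤ) : ℚ) *
      dirD k st v t (w, false) = (fun w : ℕ => (if w = (u : ℕ) then (1 : ℚ) else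
        if st u ≤ w ∧ w < (u : ℕ) then 2 else 0) *
        (if st w = st t ∧ (t : ℕ) ≤ w ∧ v w = true then 2 * PP v t w else 0)) w := by
    intro w
    rw [dirD_false]
    have hA2 : ((chainLP k st).A (u, false) (w, false) : ℤ) =
        if w = u then 1 else if st u ≤ (w : ℕ) ∧ (w : ℕ) < u then 2 else 0 := rfl
    rw [hA2]
    simp only [Fin.ext_iff]
    congr 1
    push_cast
    rfl
  rw [Finset.sum_congr rfl (fun w _ => e1 w), Fin.sum_univ_eq_sum_range
    (fun w : ℕ => (if w = (u : ℕ) then (1 : ℚ) else if st u ≤ w ∧ w < (u : ℕ) then 2 else 0) *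
        (if st w = st t ∧ (t : ℕ) ≤ w ∧ v w = true then 2 * PP v t w else 0)) k, hA1]
  by_cases hA : st u = st t ∧ (t : ℕ) ≤ u
  · obtain ⟨hs, htu⟩ := hA
    have hlet := h.le t t.2
    have hltu := h.lt u u.2
    have hln := chain_ln h t.2 u.2 hs
    rw [if_pos ⟨by rw [hs]; exact hlet, htu⟩]
    have e2 : ∀ w ∈ range k, (if w = (u : ℕ) then (1 : ℚ) else
        if st u ≤ w ∧ w < (u : ℕ) then 2 else 0) *
        (if st w = st t ∧ (t : ℕ) ≤ w ∧ v w = true then 2 * PP v t w else 0) =
        (if w = (u : ℕ) then 2 * PP v t u else 0) +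
          2 * (if w ∈ Ico (t : ℕ) u then (if v w = true then 2 * PP v t w else 0) else 0) := by
      intro w _
      by_cases h1 : w = (u : ℕ)
      · subst h1
        rw [if_pos rfl, if_pos ⟨hs, htu, hvu⟩, if_pos rfl, if_neg (by simp)]
        ring
      · rw [if_neg h1, if_neg h1]
        by_cases h2 : w ∈ Ico (t : ℕ) u
        · rw [mem_Ico] at h2
          have hsw : st w = st t := (h.same t t.2 w (by omega) (by omega)).1
          rw [if_pos ⟨by omega, h2.2⟩, if_pos (mem_Ico.2 h2)]
          simp only [hsw, h2.1, true_and]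
          ring
        · rw [if_neg h2]
          rw [mem_Ico] at h2
          by_cases h3 : (t : ℕ) ≤ w
          · rw [if_neg (by omega)]; ring
          · rw [if_neg (by tauto : ¬ (st w = st t ∧ (t : ℕ) ≤ w ∧ v w = true))]; ring
    rw [Finset.sum_congr rfl e2, Finset.sum_add_distrib, Finset.sum_ite_eq', if_pos (mem_range.2 u.2),
      ← Finset.mul_sum, ← Finset.sum_filter]
    have e3 : (range k).filter (fun w => w ∈ Ico (t : ℕ) u) = Ico (t : ℕ) u := by
      ext w
      have := u.2
      simp only [mem_filter, mem_range, mem_Ico]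
      omega
    rw [e3, psumD v htu]
    push_cast
    ring
  · have e4 : ∀ w ∈ range k, (if w = (u : ℕ) then (1 : ℚ) else
        if st u ≤ w ∧ w < (u : ℕ) then 2 else 0) *
        (if st w = st t ∧ (t : ℕ) ≤ w ∧ v w = true then 2 * PP v t w else 0) = 0 := by
      intro w _
      by_cases h1 : w = (u : ℕ)
      · subst h1
        rw [if_neg (by tauto : ¬ (st (u : ℕ) = st t ∧ (t : ℕ) ≤ u ∧ v u = true)), mul_zero]
      · rw [if_neg h1]
        by_cases h2 : st u ≤ w ∧ w < (u : ℕ)
        · have hsw : st w = st u := (h.same u u.2 w h2.1 (by have := h.lt u u.2; omega)).1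
          rw [if_pos h2, if_neg, mul_zero]
          rintro ⟨a1, a2, -⟩
          exact hA ⟨by rw [← hsw, a1], by omega⟩
        · rw [if_neg h2, zero_mul]
    rw [Finset.sum_eq_zero e4, if_neg]
    · simp
    · rintro ⟨a1, a2⟩
      have hst : st t = st u := (h.same u u.2 t a1 (by have := h.lt u u.2; omega)).1
      exact hA ⟨hst.symm, a2⟩

theorem edged_value (h : Chains k st ln) (v : ℕ → Bool) (t : Fin k) :
    (chainLP k st).value (dirD k st v t) = - eps st ln v t := by
  unfold LP.value
  simp only [Fintype.sum_prod_type, Fintype.sum_bool]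
  rw [Finset.sum_add_distrib, sum_dummy st v t
    (fun w => (((chainLP k st).c (w, true) : ℤ) : ℚ))]
  have hc1 : ((chainLP k st).c (t, true) : ℤ) = -1 := rfl
  have e1 : ∀ w : Fin k, (((chainLP k st).c (w, false) : ℤ) : ℚ) * dirD k st v t (w, false) =
      (fun w : ℕ => (if w ∈ Ico (t : ℕ) (st t + ln t) then
        (if v w = true then 2 * PP v t w else 0) else 0 : ℚ)) w := by
    intro w
    rw [dirD_false]
    have hc2 : ((chainLP k st).c (w, false) : ℤ) = 1 := rfl
    rw [hc2, Int.cast_one, one_mul]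
    by_cases h1 : st w = st t ∧ (t : ℕ) ≤ w
    · have h2 : (w : ℕ) ∈ Ico (t : ℕ) (st t + ln t) := by
        rw [mem_Ico]
        have := h.lt w w.2
        have := chain_ln h t.2 w.2 h1.1
        omega
      simp only [h1.1, h1.2, h2, true_and, if_true]
    · rw [if_neg (by tauto : ¬ (st (w : ℕ) = st t ∧ (t : ℕ) ≤ w ∧ v w = true))]
      simp only
      rw [if_neg]
      rw [mem_Ico]
      rintro ⟨a1, a2⟩
      exact h1 ⟨(h.same t t.2 w (by have := h.le t t.2; omega) a2).1, a1⟩
  rw [Finset.sum_congr rfl (fun w _ => e1 w), Fin.sum_univ_eq_sum_range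
    (fun w : ℕ => (if w ∈ Ico (t : ℕ) (st t + ln t) then
        (if v w = true then 2 * PP v t w else 0) else 0 : ℚ)) k, ← Finset.sum_filter]
  have e3 : (range k).filter (fun w => w ∈ Ico (t : ℕ) (st t + ln t)) =
      Ico (t : ℕ) (st t + ln t) := by
    ext w
    have := h.top t t.2
    simp only [mem_filter, mem_range, mem_Ico]
    omega
  rw [e3, psumD v (h.lt t t.2).le, hc1]
  unfold PP eps
  push_cast
  ring

end

theorem edged : S_EDGED := by
  intro k st ln h v t
  refine ⟨fun u => ?_, fun u => ?_, edged_value h v t⟩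
  · by_cases hv : v u = true
    · have : prim k v u = Sum.inl (u, false) := by unfold prim; rw [if_pos hv]
      rw [this]
      exact edged_rate h v t u hv
    · have : prim k v u = Sum.inr (u, false) := by unfold prim; rw [if_neg hv]
      rw [this]
      show dirD k st v t (u, false) = 0
      rw [dirD_false, if_neg (by tauto : ¬ (st (u : ℕ) = st t ∧ (t : ℕ) ≤ u ∧ v u = true))]
  · show dirD k st v t (u, true) = _
    rw [dirD_true]

end Pool.Agent.W554.NR
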